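import Pool.Agent.Q18.PR.StmC

/-!
# Chains of `p`-subgroups and quotients
-/

noncomputable section

namespace Pool.Agent.Q177.PR

open Pool.Agent.Q18.K (CH)
open Pool.Agent.Y63.KR (chainStabilizer conjSub mem_chainStabilizer)

section

variable {Γ : Type} [Group Γ] {K : Subgroup Γ} [K.Normal]

theorem cm {P : Subgroup Γ} (h : K ≤ P) :
    (P.map (QuotientGroup.mk' K)).comap (QuotientGroup.mk' K) = P :=
  Subgroup.comap_map_eq_self (by rwa [QuotientGroup.ker_mk'])

theorem mc (Q : Subgroup (Γ ⧸ K)) :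
    (Q.comap (QuotientGroup.mk' K)).map (QuotientGroup.mk' K) = Q :=
  Subgroup.map_comap_eq_self_of_surjective (QuotientGroup.mk'_surjective K) Q

theorem conj_map (g : Γ) (P : Subgroup Γ) :
    conjSub (QuotientGroup.mk' K g) (P.map (QuotientGroup.mk' K)) =
      (conjSub g P).map (QuotientGroup.mk' K) := by
  unfold conjSub
  rw [Subgroup.map_map, Subgroup.map_map]
  congr 1

theorem le_conj {P : Subgroup Γ} (h : K ≤ P) (g : Γ) : K ≤ conjSub g P := by
  intro k hk
  refine ⟨g⁻¹ * k * g, h ?_, ?_⟩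
  · have := (inferInstance : K.Normal).conj_mem k hk g⁻¹
    simpa using this
  · simp [MulAut.conj_apply, mul_assoc]

end

theorem chq : Pool.Agent.Q18.PR.S_CHQ := by
  intro p _ Γ _ _ Z K _ hZ hpZ hKZ
  have hpK : IsPGroup p K := hpZ.to_le hKZ
  have h1 : ∀ σ : Set (Subgroup Γ), CH p ⊤ Z σ → ∀ P ∈ σ, K ≤ P := fun σ hσ P hP =>
    hKZ.trans (hσ.lt P hP).le
  let e : {σ : Set (Subgroup Γ) // CH p ⊤ Z σ} ≃
      {τ : Set (Subgroup (Γ ⧸ K)) // CH p ⊤ (Z.map (QuotientGroup.mk' K)) τ} :=
    { toFun := fun σ => ⟨(Subgroup.map (QuotientGroup.mk' K)) '' σ.1, by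
        refine ⟨?_, ?_, ?_, ?_⟩
        · exact σ.2.chain.image_of_map_rel _ _ _ (fun x y h => Subgroup.map_mono h)
        · rintro _ ⟨P, hP, rfl⟩
          exact (σ.2.isp P hP).map _
        · rintro _ ⟨P, hP, rfl⟩
          exact le_top
        · rintro _ ⟨P, hP, rfl⟩
          refine lt_of_le_of_ne (Subgroup.map_mono (σ.2.lt P hP).le) ?_
          intro h
          have h2 := congrArg (Subgroup.comap (QuotientGroup.mk' K)) h
          rw [cm hKZ, cm (h1 σ.1 σ.2 P hP)] at h2
          exact (σ.2.lt P hP).ne h2⟩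
      invFun := fun τ => ⟨(Subgroup.comap (QuotientGroup.mk' K)) '' τ.1, by
        refine ⟨?_, ?_, ?_, ?_⟩
        · exact τ.2.chain.image_of_map_rel _ _ _ (fun x y h => Subgroup.comap_mono h)
        · rintro _ ⟨Q, hQ, rfl⟩
          refine (τ.2.isp Q hQ).comap_of_ker_isPGroup _ ?_
          rw [QuotientGroup.ker_mk']
          exact hpK
        · rintro _ ⟨P, hP, rfl⟩
          exact le_top
        · rintro _ ⟨Q, hQ, rfl⟩
          refine lt_of_le_of_ne ?_ ?_
          · rw [← cm hKZ]
            exact Subgroup.comap_mono (τ.2.lt Q hQ).le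
          · intro h
            have h2 := congrArg (Subgroup.map (QuotientGroup.mk' K)) h
            rw [mc] at h2
            exact (τ.2.lt Q hQ).ne h2⟩
      left_inv := fun σ => Subtype.ext (by
        show Subgroup.comap (QuotientGroup.mk' K) '' (Subgroup.map (QuotientGroup.mk' K) '' σ.1) =
          σ.1
        rw [Set.image_image]
        conv_rhs => rw [← Set.image_id σ.1]
        exact Set.image_congr fun P hP => cm (h1 σ.1 σ.2 P hP))
      right_inv := fun τ => Subtype.ext (by
        show Subgroup.map (QuotientGroup.mk' K) '' (Subgroup.comap (QuotientGroup.mk' K) '' τ.1) =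
          τ.1
        rw [Set.image_image]
        conv_rhs => rw [← Set.image_id τ.1]
        exact Set.image_congr fun P _ => mc P) }
  have he : ∀ σ, (e σ).1 = Subgroup.map (QuotientGroup.mk' K) '' σ.1 := fun σ => rfl
  refine ⟨e, fun σ => ⟨?_, ?_, ?_⟩⟩
  · rw [he]
    refine Set.InjOn.ncard_image ?_
    intro P hP Q hQ h
    have h2 := congrArg (Subgroup.comap (QuotientGroup.mk' K)) h
    rwa [cm (h1 σ.1 σ.2 P hP), cm (h1 σ.1 σ.2 Q hQ)] at h2
  · rw [he]
    ext x
    obtain ⟨g, rfl⟩ := QuotientGroup.mk'_surjective K x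
    rw [mem_chainStabilizer]
    constructor
    · intro h
      refine ⟨g, mem_chainStabilizer.2 fun P hP => ?_, rfl⟩
      have h3 := h _ ⟨P, hP, rfl⟩
      rw [conj_map] at h3
      have h2 := congrArg (Subgroup.comap (QuotientGroup.mk' K)) h3
      have hKP := h1 σ.1 σ.2 P hP
      rwa [cm (le_conj hKP g), cm hKP] at h2
    · rintro ⟨g', hg', hgg⟩ _ ⟨P, hP, rfl⟩
      rw [← hgg, conj_map, mem_chainStabilizer.1 hg' P hP]
  · unfold chainStabilizer
    refine le_iInf fun P => le_iInf fun hP => ?_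
    exact (h1 σ.1 σ.2 P hP).trans Subgroup.le_normalizer

end Pool.Agent.Q177.PR
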