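import Pool.Agent.Q18.PR.Stm

/-!
# Eigenspaces of an operator commuting with a `p`-group
-/

noncomputable section

namespace Pool.Agent.Q177.PR

open Module

variable {p : ℕ} [Fact p.Prime] {F : Type} [Field F] [CharP F p]
  {W : Type} [AddCommGroup W] [Module F W] {C : Type} [Group C] [Finite C]

/-- A finite `p`-group acting on a nonzero space of characteristic `p` fixes a nonzero vector. -/
theorem exists_fixed (ρ : Representation F C W) (hC : IsPGroup p C) (K : Submodule F W)
    (hK : ∀ g : C, ∀ v ∈ K, ρ g v ∈ K) {u : W} (huK : u ∈ K) (hu : u ≠ 0) :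
    ∃ w ∈ K, w ≠ 0 ∧ ∀ g : C, ρ g w = w := by
  classical
  have hp0 : ∀ w : W, p • w = 0 := by
    intro w
    have : (p : F) • w = 0 := by rw [CharP.cast_eq_zero, zero_smul]
    rwa [Nat.cast_smul_eq_nsmul] at this
  set A : AddSubgroup W := AddSubgroup.closure (Set.range fun g : C => ρ g u) with hA
  have hAinv : ∀ g : C, ∀ a ∈ A, ρ g a ∈ A := by
    intro g
    have : A ≤ A.comap (ρ g).toAddMonoidHom := by
      rw [hA, AddSubgroup.closure_le]
      rintro _ ⟨h, rfl⟩
      refine AddSubgroup.subset_closure ⟨g * h, ?_⟩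
      simp [map_mul]
    intro a ha
    exact this ha
  have hAK : ∀ a ∈ A, a ∈ K := by
    have : A ≤ K.toAddSubgroup := by
      rw [hA, AddSubgroup.closure_le]
      rintro _ ⟨h, rfl⟩
      exact hK h u huK
    intro a ha
    exact this ha
  have huA : u ∈ A := AddSubgroup.subset_closure ⟨1, by simp⟩
  haveI : Finite A := by
    haveI : AddGroup.FG A := by
      rw [AddGroup.fg_iff_addSubgroup_fg]
      exact ⟨(Set.finite_range fun g : C => ρ g u).toFinset, by rw [Set.Finite.coe_toFinset, hA]⟩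
    refine AddCommGroup.finite_of_fg_isAddTorsion A ?_
    intro a
    rw [isOfFinAddOrder_iff_nsmul_eq_zero]
    exact ⟨p, (Fact.out : p.Prime).pos, Subtype.ext (by simpa using hp0 a.1)⟩
  letI : MulAction C A :=
    { smul := fun g a => ⟨ρ g a.1, hAinv g a.1 a.2⟩
      one_smul := fun a => Subtype.ext (by
        show ρ 1 a.1 = a.1
        simp)
      mul_smul := fun g h a => Subtype.ext (by
        show ρ (g * h) a.1 = ρ g (ρ h a.1)
        simp [map_mul]) }
  have hdvd : p ∣ Nat.card A := by
    have ho : addOrderOf (⟨u, huA⟩ : A) = p := by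
      refine addOrderOf_eq_prime (Subtype.ext (by simpa using hp0 u)) ?_
      intro h
      exact hu (congrArg Subtype.val h)
    calc p = addOrderOf (⟨u, huA⟩ : A) := ho.symm
      _ ∣ Nat.card A := addOrderOf_dvd_natCard _
  have h0 : (0 : A) ∈ MulAction.fixedPoints C A := by
    intro g
    exact Subtype.ext (by
      show ρ g 0 = 0
      simp)
  obtain ⟨b, hb, hb0⟩ :=
    hC.exists_fixed_point_of_prime_dvd_card_of_fixed_point A hdvd h0
  refine ⟨b.1, hAK b.1 b.2, ?_, ?_⟩
  · intro h
    exact hb0 (Subtype.ext h.symm)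
  · intro g
    exact congrArg Subtype.val (hb g)

/-- `dim U ≤ |C| dim U^C`. -/
theorem dim_le [FiniteDimensional F W] (ρ : Representation F C W) (hC : IsPGroup p C)
    (U : Submodule F W) (hU : ∀ g : C, ∀ v ∈ U, ρ g v ∈ U) :
    finrank F U ≤ Nat.card C * finrank F ↥(U ⊓ ρ.invariants) := by
  classical
  haveI := Fintype.ofFinite C
  set S : Submodule F W := U ⊓ ρ.invariants with hS
  obtain ⟨π, hπ⟩ := LinearMap.exists_leftInverse_of_injective S.subtype
    (LinearMap.ker_eq_bot.2 S.injective_subtype)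
  have hπ' : ∀ s : S, π s.1 = s := fun s => congrArg (fun f : S →ₗ[F] S => f s) hπ
  let φ : U →ₗ[F] (C → S) := LinearMap.pi fun g => π ∘ₗ ρ g ∘ₗ U.subtype
  have hφ : ∀ (x : U) (g : C), φ x g = π (ρ g x.1) := fun x g => rfl
  have hinj : Function.Injective φ := by
    rw [injective_iff_map_eq_zero]
    intro x hx
    by_contra hx0
    let K : Submodule F W := U ⊓ ⨅ g : C, LinearMap.ker (π ∘ₗ ρ g)
    have hmem : ∀ w : W, w ∈ K ↔ w ∈ U ∧ ∀ g : C, π (ρ g w) = 0 := by
      intro w
      simp only [K, Submodule.mem_inf, Submodule.mem_iInf, LinearMap.mem_ker, LinearMap.comp_apply]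
    obtain ⟨w, hwK, hw0, hwf⟩ := exists_fixed ρ hC K (by
      intro g v hv
      rw [hmem] at hv ⊢
      refine ⟨hU g v hv.1, fun h => ?_⟩
      have := hv.2 (h * g)
      rwa [map_mul] at this) (u := x.1) ((hmem _).2 ⟨x.2, fun g => by
        rw [← hφ, hx]
        rfl⟩) (fun h => hx0 (Subtype.ext h))
    rw [hmem] at hwK
    have hwS : w ∈ S := ⟨hwK.1, hwf⟩
    have h1 := hπ' ⟨w, hwS⟩
    have h2 := hwK.2 1
    rw [hwf 1] at h2
    apply hw0
    rw [h2] at h1
    exact (congrArg Subtype.val h1).symm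
  have h := LinearMap.finrank_le_finrank_of_injective hinj
  rw [finrank_pi_fintype] at h
  simpa [Nat.card_eq_fintype_card] using h

theorem eig : Pool.Agent.Q18.PR.S_EIG := by
  intro p _ F _ _ _ W _ _ _ C _ _ ρ V T hC hVT hVC hcomm hdim c
  classical
  have hTV : ∀ v ∈ V, (T - c • (1 : Module.End F W)) v ∈ V := by
    intro v hv
    rw [LinearMap.sub_apply, LinearMap.smul_apply, Module.End.one_apply]
    exact V.sub_mem (hVT v hv) (V.smul_mem c hv)
  set S : Module.End F V := (T - c • (1 : Module.End F W)).restrict hTV with hS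
  have hSa : ∀ v : V, (S v).1 = T v.1 - c • v.1 := by
    intro v
    rw [hS, LinearMap.coe_restrict_apply, LinearMap.sub_apply, LinearMap.smul_apply,
      Module.End.one_apply]
  have hSn : ∀ (n : ℕ) (v : V), ((S ^ n) v).1 = ((T - c • (1 : Module.End F W)) ^ n) v.1 := by
    intro n
    induction n with
    | zero => intro v; simp
    | succ n ih =>
      intro v
      rw [pow_succ', pow_succ', Module.End.mul_apply, Module.End.mul_apply, hSa, ih,
        LinearMap.sub_apply, LinearMap.smul_apply, Module.End.one_apply]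
  have hcompl := LinearMap.isCompl_iSup_ker_pow_iInf_range_pow S
  -- the action on V
  let r : C → Module.End F V := fun g => (ρ g).restrict (hVC g)
  have hr : ∀ g (v : V), (r g v).1 = ρ g v.1 := fun g v => rfl
  have hrS : ∀ g, Commute (r g) S := by
    intro g
    refine LinearMap.ext fun v => Subtype.ext ?_
    show (r g (S v)).1 = (S (r g v)).1
    rw [hr, hSa, hSa, hr, map_sub, map_smul, hcomm g v.1 v.2]
  have hrSn : ∀ g (n : ℕ) (v : V), r g ((S ^ n) v) = (S ^ n) (r g v) := by
    intro g n v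
    have := (hrS g).pow_right n
    exact congrArg (fun f : Module.End F V => f v) this
  set A0 : Submodule F V := ⨆ n : ℕ, LinearMap.ker (S ^ n) with hA0
  set B0 : Submodule F V := ⨅ n : ℕ, LinearMap.range (S ^ n) with hB0
  have hmemA0 : ∀ v : V, v ∈ A0 ↔ ∃ n : ℕ, (S ^ n) v = 0 := by
    intro v
    rw [hA0, Submodule.mem_iSup_of_directed]
    · simp [LinearMap.mem_ker]
    · refine Monotone.directed_le fun m n hmn => ?_
      intro x hx
      rw [LinearMap.mem_ker] at hx ⊢
      obtain ⟨k, rfl⟩ := Nat.exists_eq_add_of_le hmn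
      rw [add_comm, pow_add, Module.End.mul_apply, hx, map_zero]
  set A : Submodule F W := V ⊓ T.maxGenEigenspace c with hA
  set B : Submodule F W := B0.map V.subtype with hB
  have hAm : A = A0.map V.subtype := by
    ext w
    rw [hA, Submodule.mem_inf, Module.End.mem_maxGenEigenspace, Submodule.mem_map]
    constructor
    · rintro ⟨hw, n, hn⟩
      exact ⟨⟨w, hw⟩, (hmemA0 _).2 ⟨n, Subtype.ext (by rw [hSn]; exact hn)⟩, rfl⟩
    · rintro ⟨v, hv, rfl⟩
      obtain ⟨n, hn⟩ := (hmemA0 v).1 hv
      refine ⟨v.2, n, ?_⟩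
      have := congrArg Subtype.val hn
      rw [hSn] at this
      exact this
  have hAinv : ∀ g : C, ∀ v ∈ A, ρ g v ∈ A := by
    intro g w hw
    rw [hAm, Submodule.mem_map] at hw ⊢
    obtain ⟨v, hv, rfl⟩ := hw
    obtain ⟨n, hn⟩ := (hmemA0 v).1 hv
    exact ⟨r g v, (hmemA0 _).2 ⟨n, by rw [← hrSn, hn, map_zero]⟩, rfl⟩
  have hBinv : ∀ g : C, ∀ v ∈ B, ρ g v ∈ B := by
    intro g w hw
    rw [hB, Submodule.mem_map] at hw ⊢
    obtain ⟨v, hv, rfl⟩ := hw
    refine ⟨r g v, ?_, rfl⟩
    rw [hB0, Submodule.mem_iInf] at hv ⊢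
    intro n
    obtain ⟨y, hy⟩ := hv n
    exact ⟨r g y, by rw [← hrSn, hy]⟩
  have h1 := dim_le ρ hC A hAinv
  have h2 := dim_le ρ hC B hBinv
  have hfA : finrank F A = finrank F A0 := by
    rw [hAm]
    exact (Submodule.equivMapOfInjective V.subtype V.injective_subtype A0).symm.finrank_eq
  have hfB : finrank F B = finrank F B0 :=
    (Submodule.equivMapOfInjective V.subtype V.injective_subtype B0).symm.finrank_eq
  have hsum : finrank F A + finrank F B = finrank F V := by
    rw [hfA, hfB]
    exact Submodule.finrank_add_eq_of_isCompl hcompl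
  have hdisj : Disjoint (A ⊓ ρ.invariants) (B ⊓ ρ.invariants) := by
    have : Disjoint A B := by
      rw [hAm, hB]
      exact (Submodule.disjoint_map V.injective_subtype hcompl.disjoint)
    exact this.mono inf_le_left inf_le_left
  have h3 : finrank F ↥(A ⊓ ρ.invariants) + finrank F ↥(B ⊓ ρ.invariants) ≤
      finrank F ↥(V ⊓ ρ.invariants) := by
    have h4 := Submodule.finrank_sup_add_finrank_inf_eq (A ⊓ ρ.invariants) (B ⊓ ρ.invariants)
    rw [hdisj.eq_bot, finrank_bot, add_zero] at h4
    rw [← h4]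
    refine Submodule.finrank_mono (sup_le ?_ ?_)
    · exact inf_le_inf_right _ inf_le_left
    · refine inf_le_inf_right _ ?_
      rw [hB]
      exact Submodule.map_subtype_le V B0
  have h5 : V ⊓ ρ.invariants ⊓ T.maxGenEigenspace c = A ⊓ ρ.invariants := by
    rw [hA, inf_right_comm]
  rw [h5]
  nlinarith [Nat.zero_le (Nat.card C)]

end Pool.Agent.Q177.PR
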